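import Pool.Agent.D0H17.MW.Final

set_option autoImplicit false

/-!
Waring's problem with `4k` summands, all but `⌊k/3⌋ + 2` of which are powers of positive integers, the others
powers of positive integers shifted by a fixed vector: all shift vectors, outside a set of Hausdorff dimension
smaller than the number of shifts.
-/

namespace Pool.Agent.D0H17.Old.GenericShifts

open scoped ENNReal

/-- `Covers k t m θ`: for every `η > 0`, every sufficiently large real number `τ` is within `η` of a sum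
`x_1 ^ k + … + x_t ^ k + (y_1 + θ_1) ^ k + … + (y_m + θ_m) ^ k` with positive integers `x_i` and `y_j`. -/
def Covers (k t m : ℕ) (θ : Fin m → ℝ) : Prop :=
  ∀ η : ℝ, 0 < η → ∃ τ₀ : ℝ, ∀ τ : ℝ, τ₀ ≤ τ → ∃ (x : Fin t → ℕ) (y : Fin m → ℕ),
    (∀ i, 1 ≤ x i) ∧ (∀ j, 1 ≤ y j) ∧ |∑ i, (x i : ℝ) ^ k + ∑ j, ((y j : ℝ) + θ j) ^ k - τ| < η

theorem result :
    (∀ k t₁ t₂ m : ℕ, 2 ≤ k → 2 ≤ m →
      (k : ℝ) * (1 - 1 / (k : ℝ)) ^ t₁ + (k : ℝ) * (1 - 1 / (k : ℝ)) ^ t₂ < m →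
      (k : ℝ) * (1 - 1 / (k : ℝ)) ^ t₂ ≤ (m : ℝ) - 2 →
      dimH {θ : Fin m → ℝ | ¬ Covers k (t₁ + t₂) m θ} < (m : ℝ≥0∞)) ∧
    (∀ k m t : ℕ, 6 ≤ k → m = k / 3 + 2 → t + m = 4 * k →
      dimH {θ : Fin m → ℝ | ¬ Covers k t m θ} < (m : ℝ≥0∞) ∧
      dimH {θ : Fin m → ℝ | ¬ ∃ n₀ : ℕ, ∀ n : ℕ, n₀ ≤ n → ∃ (x : Fin t → ℕ) (y : Fin m → ℕ),
        (∀ i, 1 ≤ x i) ∧ (∀ j, 1 ≤ y j) ∧
          (n : ℤ) = ∑ i, (x i : ℤ) ^ k + ⌊∑ j, ((y j : ℝ) + θ j) ^ k⌋} < (m : ℝ≥0∞)) := by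
  refine ⟨fun k t₁ t₂ m hk hm h1 h2 => Pool.Agent.D0H17.MW.general k t₁ t₂ m hk hm h1 h2, fun k m t hk hm ht => ?_⟩
  have h := D0H17.MW.fourk k m t hk hm ht
  refine ⟨h, lt_of_le_of_lt (dimH_mono ?_) h⟩
  intro θ hθ hc
  exact hθ (D0H17.MW.Cov.floor hc)

end Pool.Agent.D0H17.Old.GenericShifts
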